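import Pool.Agent.Q51.CP.ColOrb

/-!
# Cunningham orbits of the first kind in an arbitrary finite partition of the primes

Colour the primes with finitely many colours, in an arbitrary way. There are a colour and a set `E ∋ 0`
of times with at least `(log X)^(1-ε)` elements below `X`, for arbitrarily large `X`, such that for
every `M` there are infinitely many primes `p` of this colour for which the terms
`2 ^ j (p + 1) - 1`, `j ≤ M`, of the orbit of `p` that are primes of this colour are exactly those with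
`j ∈ E`.

The infinite exact pattern theorem of the starting files is divided into the colours by a limit along an
ultrafilter (`Pool.Agent.Q51.CP.Col.quant`).
-/

set_option autoImplicit false

namespace Pool.Agent.Results.MP_c77da8_nt.OneColourOrbits

/-- Let `P 0, …, P (k-1)` be sets of primes which contain all primes, and `ε > 0`. There are a class
`P c` and a set `E` with `0 ∈ E` and `|E ∩ [0, X)| ≥ (log X)^(1-ε)` for arbitrarily large `X` such that
for every `M` there are infinitely many `p ∈ P c` such that for all `j ≤ M`: the term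
`2 ^ j (p + 1) - 1` is in `P c` if and only if `j ∈ E`. -/
theorem result (k : ℕ) (P : Fin k → Set ℕ) (hP1 : ∀ c, ∀ p ∈ P c, p.Prime)
    (hP2 : ∀ p : ℕ, p.Prime → ∃ c, p ∈ P c) (ε : ℝ) (hε : 0 < ε) :
    ∃ c : Fin k, ∃ E : Set ℕ, 0 ∈ E ∧
      (∃ᶠ X : ℕ in Filter.atTop, (Real.log X) ^ (1 - ε) ≤ ((E ∩ Set.Iio X).ncard : ℝ)) ∧
      ∀ M : ℕ, {p : ℕ | p ∈ P c ∧ ∀ j ≤ M, (2 ^ j * (p + 1) - 1 ∈ P c ↔ j ∈ E)}.Infinite := by
  obtain ⟨c, E, h1, h2, h3⟩ := Pool.Agent.Q51.CP.Col.orb_start (-1) (Or.inr rfl) P hP1 hP2 ε hε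
  refine ⟨c, E, h1, h2, fun M => (h3 M).mono ?_⟩
  rintro p ⟨hp, hp2⟩
  refine ⟨hp, fun j hj => ?_⟩
  rw [← hp2 j hj]
  have h4 : 1 ≤ 2 ^ j * (p + 1) := Nat.one_le_iff_ne_zero.2 (by positivity)
  have h5 : ((2 ^ j * (p + 1) - 1 : ℕ) : ℤ) = 2 ^ j * ((p : ℤ) - -1) + -1 := by
    push_cast [Nat.cast_sub h4]
    ring
  constructor
  · intro h
    exact ⟨_, h, h5⟩
  · rintro ⟨r, hr, hre⟩
    rw [← h5] at hre
    have : r = 2 ^ j * (p + 1) - 1 := by exact_mod_cast hre
    rwa [← this]

end Pool.Agent.Results.MP_c77da8_nt.OneColourOrbits
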