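import Pool.Agent.Q51.OC.Orb

/-!
# Cunningham orbits of the first kind: one class of an arbitrary finite partition of the primes
follows every finite pattern up to a bounded error

Divide the primes into finitely many classes, in an arbitrary way. There is a class `P c` such that for
all `k` and `m` there is `C` such that for EVERY set `V ∋ 0` of at most `k` times there is a finite set
`H ∋ 0` of times, with at least `m` elements within `C` of each element of `V` and no other elements,
which is the exact set of the times at which many orbits of the first kind are in the class: for all `R`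
and `η > 0` there are arbitrarily large `x` with at least `x ^ (1 - η)` elements `p ≤ x` of `P c` such
that for all `t ≤ R` the number `2 ^ t (p + 1) - 1` is in `P c` if and only if `t ∈ H`.

Proof. The theorem for all primes (`Pool.Agent.W218.OG`, starting files) is applied to a set
`V_1 + ... + V_q`, where `V_j` is a set for which the `j`-th class fails with an error and on a scale
which are large in terms of `V_1, ..., V_{j-1}`, made sparse on this scale. If near an element `v` of
`V_q` no cluster is in class `q`, then `v + V_1 + ... + V_{q-1}` is a counterexample to the inductive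
hypothesis; otherwise class `q` follows `V_q` (`Pool.Agent.Q51.OC.one_class`).
-/

set_option autoImplicit false

namespace Pool.Agent.Results.MP_c77da8_nt.PatternsInOneClass

open Filter

/-- Let `P 0, …, P (q-1)` be sets of primes which contain all primes. There is `c` such that for all
`k`, `m` there is `C` such that for every set `V` of at most `k` times with `0 ∈ V` there is a finite set
`H` of times with `0 ∈ H`, with at least `m` elements within `C` of each element of `V` and none
elsewhere, such that for all `R` and `η > 0` there are arbitrarily large `x` with at least `x ^ (1 - η)`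
elements `p ≤ x` of `P c` for which the terms `2 ^ t (p + 1) - 1`, `t ≤ R`, that belong to `P c` are
those with `t ∈ H`. -/
theorem result (q : ℕ) (P : Fin q → Set ℕ) (hP1 : ∀ c, ∀ p ∈ P c, p.Prime)
    (hP2 : ∀ p : ℕ, p.Prime → ∃ c, p ∈ P c) :
    ∃ c : Fin q, ∀ k m : ℕ, ∃ C : ℕ, ∀ V : Finset ℕ, 0 ∈ V → V.card ≤ k →
    ∃ H : Finset ℕ, 0 ∈ H ∧ (∀ x ∈ V, m ≤ (H.filter (fun h : ℕ => |(h : ℤ) - x| ≤ C)).card) ∧
      (∀ h ∈ H, ∃ x ∈ V, |(h : ℤ) - x| ≤ C) ∧
      ∀ (R : ℕ) (η : ℝ), 0 < η → ∃ᶠ x : ℝ in atTop,
        x ^ (1 - η) ≤ ({p : ℕ | (p : ℝ) ≤ x ∧ p ∈ P c ∧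
          ∀ t ≤ R, (2 ^ t * (p + 1) - 1 ∈ P c ↔ t ∈ H)}.ncard : ℝ) := by
  refine Pool.Agent.Q51.OC.orb_class_nat 2 1 le_rfl (by norm_num) (by norm_num)
    (fun p hp h => absurd (Nat.dvd_one.1 (by simpa using h)) hp.one_lt.ne')
    (fun p t => 2 ^ t * (p + 1) - 1) (fun p t _ => ?_) P hP1 hP2
  have h4 : 1 ≤ 2 ^ t * (p + 1) := Nat.one_le_iff_ne_zero.2 (by positivity)
  rw [Pool.Agent.H447R3.IT.iter, Pool.Agent.W218.OG.B_twoO]
  push_cast [Nat.cast_sub h4]
  ring

end Pool.Agent.Results.MP_c77da8_nt.PatternsInOneClass
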