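import Mathlib
import Pool.Agent.Y862.Sc

set_option autoImplicit false

/-!
# Cunningham orbits of the first kind: one third of the times, at every scale

`c_j(p) = 2 ^ j (p + 1) - 1` is the `j`-th term of the orbit of `p` under `x ↦ 2 x + 1`. For every `R` and
`ε > 0` there is `L` such that for all `T ≥ L` and `η > 0` the following holds at EVERY large `x`: for at
least `(1/3 - ε) T` of the times `1 ≤ k ≤ T` there are at least `x ^ (1 - η)` primes `p ≤ x` whose next
prime term is the `k`-th one, followed by `R` composite terms, and which are not one of the first `R`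
terms of the orbit of a prime.

The results on these orbits which come from the coloured theorem of Maynard and Tao are for arbitrarily
large `x` only. The proof is the theorem `Pool.Agent.Y862.transferEv` of the starting files for the orbits
of `x ↦ D x + e`, with `D = 2`, `e = 1`.
-/

namespace Pool.Agent.Results.MP_c77da8_nt.ThirdOfTimesEveryScale

open Filter

/-- For every `R` and `ε > 0` there is `L` such that for `T ≥ L`, `η > 0` and EVERY large `x`, for at least
`(1/3 - ε) T` of the `k ≤ T` there are at least `x ^ (1 - η)` primes `p ≤ x` for which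
`2 ^ k (p + 1) - 1` is prime, the terms `2 ^ l (p + 1) - 1`, `0 < l < k` and `k < l ≤ k + R`, are composite
and `p` is none of the first `R` terms after a prime `q` of its orbit. -/
theorem result (R : ℕ) (ε : ℝ) (hε : 0 < ε) : ∃ L : ℕ, ∀ T : ℕ, L ≤ T → ∀ η : ℝ, 0 < η →
    ∀ᶠ x : ℝ in atTop, (1 / 3 - ε) * (T : ℝ) ≤ ({k : ℕ | 1 ≤ k ∧ k ≤ T ∧
      x ^ (1 - η) ≤ ({p : ℕ | (p : ℝ) ≤ x ∧ p.Prime ∧ (2 ^ k * (p + 1) - 1).Prime ∧
        (∀ l, 0 < l → l < k → ¬ (2 ^ l * (p + 1) - 1).Prime) ∧
        ∀ l, 0 < l → l ≤ R → ¬ (2 ^ (k + l) * (p + 1) - 1).Prime ∧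
          ∀ q : ℕ, q.Prime → 2 ^ l * (q + 1) - 1 ≠ p}.ncard : ℝ)}.ncard : ℝ) := by
  have h := Pool.Agent.Y862.transferEv 2 1 1 le_rfl (by norm_num) (by norm_num) one_pos
    (fun p hp h => absurd (Nat.dvd_one.1 (by simpa using h)) hp.one_lt.ne')
    (fun p j => 2 ^ j * (p + 1) - 1)
    (fun p j hp => by
      have h1 : 1 ≤ 2 ^ j * (p + 1) := Nat.one_le_iff_ne_zero.2 (by positivity)
      rw [Pool.Agent.H447R3.IT.iter, Pool.Agent.W218.OG.B_two]
      push_cast [Nat.cast_sub h1]
      ring) R ε hε
  simp only [one_mul] at h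
  exact h

end Pool.Agent.Results.MP_c77da8_nt.ThirdOfTimesEveryScale
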